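import Pool.Agent.Run7.h741.CC.Dic5

/-!
# The dictionary of the cyclic cubic fields ramified at `3`, part 1: arithmetic in `ℤ[ω]`
-/

set_option autoImplicit false

open NumberField

namespace Pool.Agent.Run7.h289.RD

open Pool.Agent.Y692.QS
open Pool.Agent.Run7.h741.CC

/-- the prime above three -/
def lam : Ei := ⟨1, -1⟩

lemma nr_lam : nr lam = 3 := by decide

lemma lam_ne : lam ≠ 0 := by decide

/-- an element whose norm is divisible by three -/
lemma lam_dvd {x : Ei} (h : (3 : ℤ) ∣ nr x) : ∃ y : Ei, x = lam * y ∧ nr x = 3 * nr y := by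
  have h1 : (3 : ℤ) ∣ x.re + x.im := by
    have h2 := (ZMod.intCast_zmod_eq_zero_iff_dvd _ 3).2 h
    rw [nr_mod] at h2
    apply (ZMod.intCast_zmod_eq_zero_iff_dvd _ 3).1
    push_cast
    exact pow_eq_zero_iff (two_ne_zero) |>.1 h2
  obtain ⟨k, hk⟩ := h1
  refine ⟨⟨x.re - k, k⟩, ?_, ?_⟩
  · ext
    · rw [mul_re]
      show x.re = 1 * (x.re - k) - -1 * k
      ring
    · rw [mul_im]
      show x.im = 1 * k + -1 * (x.re - k) - -1 * k
      linarith
  · show x.re ^ 2 - x.re * x.im + x.im ^ 2 = 3 * ((x.re - k) ^ 2 - (x.re - k) * k + k ^ 2)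
    have h2 : x.im = 3 * k - x.re := by linarith
    rw [h2]
    ring

/-- the units congruent to an element modulo three -/
lemma ep_im (a : Ei) (h : ¬ (3 : ℤ) ∣ nr a) :
    (ep a = 1 ∨ ep a = -1) ∨ ¬ (3 : ℤ) ∣ (ep a).im := by
  have h1 : ((nr a : ℤ) : ZMod 3) ≠ 0 := by
    intro h'
    exact h ((ZMod.intCast_zmod_eq_zero_iff_dvd _ 3).1 h')
  rw [nr_mod] at h1
  have key : ∀ x y : ZMod 3, (x + y) ^ 2 ≠ 0 →
      (epz x y = 1 ∨ epz x y = -1) ∨ ¬ (3 : ℤ) ∣ (epz x y).im := by decide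
  exact key _ _ h1

lemma nr_ep {a : Ei} (h : ¬ (3 : ℤ) ∣ nr a) : nr (ep a) = 1 := by
  have h4 := (ep_cases a h).2
  have := congrArg nr h4
  rw [nr_mul, nr_star, nr_one] at this
  have h6 := nr_nonneg (ep a)
  nlinarith

lemma ep_ns {a : Ei} (h : ¬ (3 : ℤ) ∣ nr a) : ep a * ns a = a := by
  unfold ns
  rw [← mul_assoc, mul_comm (ep a), (ep_cases a h).2, one_mul]

/-- an element congruent to one modulo three -/
lemma nr_one_three {x : Ei} (h : (3 : Ei) ∣ x - 1) : ¬ (3 : ℤ) ∣ nr x := by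
  obtain ⟨t, ht⟩ := h
  have h5 : x = 1 + 3 * t := by rw [← ht]; ring
  rw [h5]
  have e1 : (1 + 3 * t : Ei).re = 1 + 3 * t.re := by
    rw [QuadraticAlgebra.re_add, mul_re]
    show 1 + (3 * t.re - 0 * t.im) = _
    ring
  have e2 : (1 + 3 * t : Ei).im = 3 * t.im := by
    rw [QuadraticAlgebra.im_add, mul_im]
    show 0 + (3 * t.im + 0 * t.re - 0 * t.im) = _
    ring
  unfold nr
  rw [e1, e2]
  rintro ⟨k, hk⟩
  have : (1 : ℤ) = 3 * (k - 2 * t.re - 3 * t.re ^ 2 + t.im + 3 * t.re * t.im -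
    3 * t.im ^ 2) := by linear_combination hk
  omega

/-- **The factorisation** of an element whose norm is a cube. -/
theorem fac' (m : ℕ) : ∀ a : Ei, nr a = (m : ℤ) ^ 3 → m ≠ 0 →
    ∃ (c γ : Ei) (n : ℕ), Squarefree n ∧ ¬ 3 ∣ n ∧ nr γ = n ∧ c ≠ 0 ∧
      a = c ^ 3 * ((n : ℕ) : Ei) * γ ∧ ((3 : Ei) ∣ γ - 1 ∨ ¬ (3 : ℤ) ∣ γ.im) := by
  induction m using Nat.strong_induction_on with
  | _ m ih =>
    intro a ha hm0
    by_cases h3 : 3 ∣ m
    · obtain ⟨k, rfl⟩ := h3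
      have hk0 : k ≠ 0 := fun h => hm0 (by rw [h, mul_zero])
      push_cast at ha
      obtain ⟨a₁, e1, n1⟩ := lam_dvd (x := a) (by rw [ha]; exact ⟨9 * (k : ℤ) ^ 3, by ring⟩)
      obtain ⟨a₂, e2, n2⟩ := lam_dvd (x := a₁) ⟨3 * (k : ℤ) ^ 3, by linarith⟩
      obtain ⟨a₃, e3, n3⟩ := lam_dvd (x := a₂) ⟨(k : ℤ) ^ 3, by linarith⟩
      have hn : nr a₃ = (k : ℤ) ^ 3 := by linarith
      obtain ⟨c, γ, n, j1, j2, j3, j4, j5, j6⟩ := ih k (by omega) a₃ hn hk0
      refine ⟨lam * c, γ, n, j1, j2, j3, mul_ne_zero lam_ne j4, ?_, j6⟩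
      rw [e1, e2, e3, j5]
      ring
    · have hp3 : Prime (3 : ℤ) := Int.prime_three
      have hna : ¬ (3 : ℤ) ∣ nr a := by
        rw [ha]
        intro h
        apply h3
        have := hp3.dvd_of_dvd_pow h
        exact_mod_cast this
      have hns := ns_one hna
      obtain ⟨c, β, n, j1, j2, j3, j4, j5, j6⟩ := fac m (ns a) (by rw [nr_ns hna, ha]) hns
      have hn3 : ¬ 3 ∣ n := fun h => h3 (h.trans j1)
      have ha2 : a = ep a * (c ^ 3 * ((n : ℕ) : Ei) * β) := by rw [← j6, ep_ns hna]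
      rcases ep_im a hna with (h | h) | h
      · refine ⟨c, β, n, j2, hn3, j3, j5, ?_, Or.inl j4⟩
        rw [ha2, h, one_mul]
      · refine ⟨-c, β, n, j2, hn3, j3, neg_ne_zero.2 j5, ?_, Or.inl j4⟩
        rw [ha2, h]
        ring
      · refine ⟨c, ep a * β, n, j2, hn3, ?_, j5, ?_, Or.inr ?_⟩
        · rw [nr_mul, nr_ep hna, one_mul, j3]
        · conv_lhs => rw [ha2]
          ring
        · -- `ep a * β ≡ ep a` modulo three
          obtain ⟨t, ht⟩ := j4
          have h5 : β = 1 + 3 * t := by rw [← ht]; ring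
          have h6 : (ep a * β).im = (ep a).im + 3 * (ep a * t).im := by
            have h7 : ep a * β = ep a + 3 * (ep a * t) := by rw [h5]; ring
            rw [h7, QuadraticAlgebra.im_add, mul_im 3]
            show (ep a).im + (3 * (ep a * t).im + 0 * (ep a * t).re - 0 * (ep a * t).im) = _
            ring
          rw [h6]
          intro h8
          exact h ((dvd_add_left (Dvd.intro _ rfl)).1 h8)

end Pool.Agent.Run7.h289.RD
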