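import Pool.Agent.Run7.h289.RD.R1

/-!
# The dictionary of the cyclic cubic fields ramified at `3`, part 2: every cyclic cubic field ramified
at `3` is generated by a root of `x³ = 3 n x + n u`, `4 n = u² + 3 v²`, `3 ∤ n v`
-/

set_option autoImplicit false

open NumberField

namespace Pool.Agent.Run7.h289.RD

open Pool.Agent.Y692.QS
open Pool.Agent.Run7.h741.CC

section core

variable {F : Type} [Field F] [NumberField F] {s : F ≃ₐ[ℚ] F}

/-- an integral element which is not rational -/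
lemma exists_moved (C : Cyc F s) (hd : Module.finrank ℚ F = 3) :
    ∃ η : F, IsIntegral ℤ η ∧ s η ≠ η := by
  by_contra hc
  push Not at hc
  have h1 : ∀ x : F, s x = x := by
    intro x
    obtain ⟨a, b, -, h⟩ := IsFractionRing.div_surjective (A := 𝓞 F) x
    rw [← h, map_div₀, hc _ (RingOfIntegers.isIntegral_coe a), hc _ (RingOfIntegers.isIntegral_coe b)]
  have h2 : (⊥ : Subalgebra ℚ F) = ⊤ := by
    rw [eq_top_iff]
    intro x _
    obtain ⟨q, hq⟩ := C.fix (h1 x)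
    rw [Algebra.mem_bot]
    exact ⟨q, by rw [hq, eq_ratCast]⟩
  have h3 := Subalgebra.bot_eq_top_iff_finrank_eq_one.1 h2
  omega

/-- the generator from a factorisation of the cube of the resolvent -/
theorem core {A B : F} (sA : s A = B - A) (sB : s B = -A) {a c γ : Ei} {M n : ℕ}
    (h0 : A ^ 3 + B ^ 3 - 3 * A * B ^ 2 = (a.re : F)) (h1 : 3 * (A ^ 2 * B - A * B ^ 2) = (a.im : F))
    (hm : A ^ 2 - A * B + B ^ 2 = (M : F)) (hnr : nr a = (M : ℤ) ^ 3) (hn0 : n ≠ 0)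
    (hγ : nr γ = n) (hc0 : c ≠ 0) (hfac : a = c ^ 3 * ((n : ℕ) : Ei) * γ) :
    ∃ θ : F, θ ^ 3 = 3 * (n : F) * θ + (n : F) * ((2 * γ.re - γ.im : ℤ) : F) ∧
      4 * (n : ℤ) = (2 * γ.re - γ.im) ^ 2 + 3 * γ.im ^ 2 ∧ γ.im ≠ 0 := by
  obtain ⟨N, hN⟩ : ∃ N : ℤ, N = nr c := ⟨_, rfl⟩
  have hN0 : (N : F) ≠ 0 := by
    rw [hN, Int.cast_ne_zero]
    exact fun h => hc0 (nr_zero_iff.1 h)
  obtain ⟨c₀, hc₀⟩ : ∃ c₀ : ℤ, c₀ = c.re := ⟨_, rfl⟩
  obtain ⟨c₁, hc₁⟩ : ∃ c₁ : ℤ, c₁ = c.im := ⟨_, rfl⟩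
  have hNc : N = c₀ ^ 2 - c₀ * c₁ + c₁ ^ 2 := by rw [hN, hc₀, hc₁]; rfl
  have hNF : (N : F) = (c₀ : F) ^ 2 - c₀ * c₁ + (c₁ : F) ^ 2 := by rw [hNc]; push_cast; ring
  have hst : star c = ⟨c₀ - c₁, -c₁⟩ := by
    ext
    · rw [star_re, hc₀, hc₁]
    · rw [star_im, hc₁]
  have hfac2 : a * star c ^ 3 = (((N ^ 3 * n : ℤ)) : Ei) * γ := by
    have h1 : c * star c = ((N : ℤ) : Ei) := by rw [mul_star, hN]
    calc a * star c ^ 3 = (c * star c) ^ 3 * ((n : ℕ) : Ei) * γ := by rw [hfac]; ring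
      _ = _ := by rw [h1]; push_cast; ring
  rw [hst, cube_mk] at hfac2
  obtain ⟨p, hp⟩ : ∃ p : ℤ, p = (c₀ - c₁) ^ 3 + (-c₁) ^ 3 - 3 * (c₀ - c₁) * (-c₁) ^ 2 := ⟨_, rfl⟩
  obtain ⟨q, hq⟩ : ∃ q : ℤ, q = 3 * (c₀ - c₁) ^ 2 * (-c₁) - 3 * (c₀ - c₁) * (-c₁) ^ 2 := ⟨_, rfl⟩
  rw [← hp, ← hq] at hfac2
  have hre : a.re * p - a.im * q = N ^ 3 * n * γ.re := by
    have h1 := congrArg QuadraticAlgebra.re hfac2
    rw [mul_re, mul_re] at h1
    have e : a.re * p - a.im * q = N ^ 3 * n * γ.re - 0 * γ.im := h1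
    linarith
  have him : a.re * q + a.im * p - a.im * q = N ^ 3 * n * γ.im := by
    have h1 := congrArg QuadraticAlgebra.im hfac2
    rw [mul_im, mul_im] at h1
    have e : a.re * q + a.im * p - a.im * q =
      N ^ 3 * n * γ.im + 0 * γ.re - 0 * γ.im := h1
    linarith
  have hreF : (a.re : F) * p - a.im * q = (N : F) ^ 3 * n * γ.re := by
    exact_mod_cast congrArg (Int.cast : ℤ → F) hre
  have himF : (a.re : F) * q + a.im * p - a.im * q = (N : F) ^ 3 * n * γ.im := by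
    exact_mod_cast congrArg (Int.cast : ℤ → F) him
  have hpF : (p : F) = ((c₀ : F) - c₁) ^ 3 + (-(c₁ : F)) ^ 3 - 3 * ((c₀ : F) - c₁) * (-(c₁ : F)) ^ 2 := by
    rw [hp]; push_cast; ring
  have hqF : (q : F) = 3 * ((c₀ : F) - c₁) ^ 2 * (-(c₁ : F)) - 3 * ((c₀ : F) - c₁) * (-(c₁ : F)) ^ 2 := by
    rw [hq]; push_cast; ring
  obtain ⟨X, hX⟩ : ∃ X : F, X = A * ((c₀ : F) - c₁) + B * c₁ := ⟨_, rfl⟩
  obtain ⟨Y, hY⟩ : ∃ Y : F, Y = B * (c₀ : F) - A * c₁ := ⟨_, rfl⟩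
  have sX : s X = Y - X := by
    rw [hX, hY]
    simp only [map_sub, map_add, map_mul, map_intCast, sA, sB]
    ring
  have sY : s Y = -X := by
    rw [hX, hY]
    simp only [map_sub, map_mul, map_intCast, sA, sB]
    ring
  have e1 : X ^ 3 + Y ^ 3 - 3 * X * Y ^ 2 = (N : F) ^ 3 * n * γ.re := by
    rw [← hreF, ← h0, ← h1, hpF, hqF, hX, hY]
    ring
  have e2 : 3 * X ^ 2 * Y - 3 * X * Y ^ 2 = (N : F) ^ 3 * n * γ.im := by
    rw [← himF, ← h0, ← h1, hpF, hqF, hX, hY]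
    ring
  -- `M = N n`
  have hMN : (M : ℤ) = N * n := by
    have h1 : nr a * nr (star c) ^ 3 = (N ^ 3 * n) ^ 2 * n := by
      have h2 : nr (a * star c ^ 3) = nr ((((N ^ 3 * n : ℤ)) : Ei) * γ) := by
        have h3 : a * star c ^ 3 = (((N ^ 3 * n : ℤ)) : Ei) * γ := by
          rw [hst, cube_mk, ← hp, ← hq]
          exact hfac2
        rw [h3]
      rw [nr_mul, nr_pow, nr_mul, nr_int, hγ] at h2
      exact h2
    rw [hnr, nr_star, ← hN] at h1
    have hN0' : (N : ℤ) ≠ 0 := fun h => hN0 (by rw [h, Int.cast_zero])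
    have h2 : (M : ℤ) ^ 3 = (N * n) ^ 3 := by
      apply mul_right_cancel₀ (pow_ne_zero 3 hN0')
      linear_combination h1
    exact Odd.pow_injective (by decide : Odd 3) h2
  have hMN' : ((M : ℕ) : F) = (N : F) * n := by
    have h1 : (((M : ℕ) : ℤ) : F) = ((N * n : ℤ) : F) := by rw [hMN]
    push_cast at h1
    exact h1
  have e3 : X ^ 2 - X * Y + Y ^ 2 = (N : F) ^ 2 * n := by
    have h1 : X ^ 2 - X * Y + Y ^ 2 = (A ^ 2 - A * B + B ^ 2) * N := by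
      rw [hX, hY, hNF]
      ring
    rw [h1, hm, hMN']
    ring
  -- the generator
  obtain ⟨θ, hθ⟩ : ∃ θ : F, θ = (2 * X - Y) / N := ⟨_, rfl⟩
  refine ⟨θ, ?_, ?_, ?_⟩
  · have h1 : (N : F) * θ = 2 * X - Y := by
      rw [hθ, mul_div_cancel₀ _ hN0]
    have h2 : ((N : F) * θ) ^ 3 = (N : F) ^ 3 * (3 * (n : F) * θ +
        (n : F) * ((2 * γ.re - γ.im : ℤ) : F)) := by
      have h3 : (N : F) ^ 3 * (3 * (n : F) * θ + (n : F) * ((2 * γ.re - γ.im : ℤ) : F)) =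
          3 * ((N : F) ^ 2 * n) * ((N : F) * θ) + (N : F) ^ 3 * n * (2 * γ.re - γ.im) := by
        push_cast
        ring
      rw [h3, h1, ← e3]
      linear_combination 2 * e1 - e2
    have h3 : (N : F) ^ 3 ≠ 0 := pow_ne_zero 3 hN0
    apply mul_left_cancel₀ h3
    rw [← h2]
    ring
  · have h1 : γ.re ^ 2 - γ.re * γ.im + γ.im ^ 2 = n := hγ
    rw [← h1]
    ring
  · intro h
    rw [h] at e2
    have h3 : (3 : F) ≠ 0 := three_ne_zero
    have h4 : X * (Y * (X - Y)) = 0 := by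
      apply mul_left_cancel₀ h3
      push_cast at e2
      linear_combination e2
    have hX0 : X = 0 := by
      rcases mul_eq_zero.1 h4 with h5 | h5
      · exact h5
      rcases mul_eq_zero.1 h5 with h6 | h6
      · have h7 := sY
        rw [h6, map_zero] at h7
        exact neg_eq_zero.1 h7.symm
      · have h7 : Y = X := (sub_eq_zero.1 h6).symm
        have h8 := sX
        rw [h7, sub_self] at h8
        exact (map_eq_zero s).1 h8
    have hY0 : Y = 0 := by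
      have h7 := sX
      rw [hX0, map_zero, sub_zero] at h7
      exact h7.symm
    rw [hX0, hY0] at e3
    have h5 : (N : F) ^ 2 * n ≠ 0 := mul_ne_zero (pow_ne_zero 2 hN0) (Nat.cast_ne_zero.2 hn0)
    exact h5 (by rw [← e3]; ring)

/-- **Existence.** -/
theorem exist' (hd : Module.finrank ℚ F = 3) [IsGalois ℚ F] (h3 : (3 : ℤ) ∣ discr F) :
    ∃ (u v n : ℕ) (th : F), 0 < u ∧ 0 < v ∧ ¬ 3 ∣ v ∧ 4 * n = u ^ 2 + 3 * v ^ 2 ∧ Squarefree n ∧
      ¬ 3 ∣ n ∧ th ^ 3 = 3 * (n : F) * th + (n : F) * (u : F) := by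
  obtain ⟨s, C⟩ := exists_cyc F hd
  obtain ⟨η, iη, hη⟩ := exists_moved C hd
  have iη' : IsIntegral ℤ (s η) := int_s iη
  have iη'' : IsIntegral ℤ (s (s η)) := int_s iη'
  obtain ⟨A, hA⟩ : ∃ A : F, A = η - s (s η) := ⟨_, rfl⟩
  obtain ⟨B, hB⟩ : ∃ B : F, B = s η - s (s η) := ⟨_, rfl⟩
  have iA : IsIntegral ℤ A := by rw [hA]; exact iη.sub iη''
  have iB : IsIntegral ℤ B := by rw [hB]; exact iη'.sub iη''
  have sA : s A = B - A := by
    rw [hA, map_sub, C.cube, hB]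
    ring
  have sB : s B = -A := by
    rw [hB, map_sub, C.cube, hA]
    ring
  have hAB : ¬ (A = 0 ∧ B = 0) := by
    rintro ⟨h1, h2⟩
    rw [hA, sub_eq_zero] at h1
    rw [hB, sub_eq_zero] at h2
    exact hη (by rw [h2, ← h1])
  obtain ⟨t, ht1⟩ := C.int (x := A ^ 2 * B - A * B ^ 2) (by
    simp only [map_sub, map_mul, map_pow, sA, sB]
    ring) (((iA.pow 2).mul iB).sub (iA.mul (iB.pow 2)))
  obtain ⟨m, hm⟩ := C.int (x := A ^ 2 - A * B + B ^ 2) (by
    simp only [map_sub, map_add, map_mul, map_pow, sA, sB]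
    ring) (((iA.pow 2).sub (iA.mul iB)).add (iB.pow 2))
  obtain ⟨r, hr⟩ := C.int (x := A ^ 3 + B ^ 3 - 3 * A * B ^ 2) (by
    simp only [map_sub, map_add, map_mul, map_pow, map_ofNat, sA, sB]
    ring) (by
    have i3 := int_val (F := F) 3
    push_cast at i3
    exact ((iA.pow 3).add (iB.pow 3)).sub ((i3.mul iA).mul (iB.pow 2)))
  obtain ⟨a, ha⟩ : ∃ a : Ei, a = ⟨r, 3 * t⟩ := ⟨_, rfl⟩
  have h0 : A ^ 3 + B ^ 3 - 3 * A * B ^ 2 = (a.re : F) := by rw [hr, ha]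
  have h1 : 3 * (A ^ 2 * B - A * B ^ 2) = (a.im : F) := by rw [ht1, ha]; push_cast; rfl
  have hnr : nr a = m ^ 3 := by
    have h2 : ((nr a : ℤ) : F) = ((m ^ 3 : ℤ) : F) := by
      unfold nr
      push_cast
      rw [← hm, ← h0, ← h1]
      ring
    exact_mod_cast h2
  have hm0 : 0 ≤ m := by
    have h1 := nr_nonneg a
    rw [hnr] at h1
    by_contra h
    push Not at h
    have : m ^ 3 < 0 := Odd.pow_neg (by decide) h
    omega
  have hm1 : m ≠ 0 := by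
    intro h
    rw [h] at hnr
    have h2 : a = 0 := nr_zero_iff.1 (by rw [hnr]; norm_num)
    have h0' : A ^ 3 + B ^ 3 - 3 * A * B ^ 2 = 0 := by rw [h0, h2]; simp
    have h1' : 3 * (A ^ 2 * B - A * B ^ 2) = 0 := by rw [h1, h2]; simp
    have h3' : (3 : F) ≠ 0 := three_ne_zero
    have h4 : A * (B * (A - B)) = 0 := by
      apply mul_left_cancel₀ h3'
      linear_combination h1'
    apply hAB
    rcases mul_eq_zero.1 h4 with h5 | h5
    · rw [h5] at h0'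
      refine ⟨h5, ?_⟩
      have : B ^ 3 = 0 := by linear_combination h0'
      exact pow_eq_zero_iff (three_ne_zero) |>.1 this
    rcases mul_eq_zero.1 h5 with h6 | h6
    · rw [h6] at h0'
      refine ⟨?_, h6⟩
      have : A ^ 3 = 0 := by linear_combination h0'
      exact pow_eq_zero_iff (three_ne_zero) |>.1 this
    · have h7 : A = B := sub_eq_zero.1 h6
      rw [h7] at h0'
      have : B ^ 3 = 0 := by linear_combination -h0'
      have h8 : B = 0 := pow_eq_zero_iff (three_ne_zero) |>.1 this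
      exact ⟨by rw [h7, h8], h8⟩
  obtain ⟨M, rfl⟩ := Int.eq_ofNat_of_zero_le hm0
  have hM0 : M ≠ 0 := by
    rintro rfl
    exact hm1 rfl
  obtain ⟨c, γ, n, hsq, hn3, hγ, hc0, hfac, hcase⟩ := fac' M a hnr hM0
  have hm' : A ^ 2 - A * B + B ^ 2 = ((M : ℕ) : F) := by rw [hm]; push_cast; rfl
  obtain ⟨θ, hθ, hn4, hv0⟩ := core sA sB h0 h1 hm' hnr hsq.ne_zero hγ hc0 hfac
  obtain ⟨u₀, hu₀⟩ : ∃ u₀ : ℤ, u₀ = 2 * γ.re - γ.im := ⟨_, rfl⟩
  rw [← hu₀] at hθ hn4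
  have hu0 : u₀ ≠ 0 := by
    intro h
    rw [h] at hn4
    apply hn3
    have : (3 : ℤ) ∣ (n : ℤ) := by
      have h5 : (3 : ℤ) ∣ 4 * (n : ℤ) := ⟨γ.im ^ 2, by rw [hn4]; ring⟩
      have h6 : IsCoprime (3 : ℤ) 4 := ⟨-1, 1, by norm_num⟩
      exact h6.dvd_of_dvd_mul_left h5
    exact_mod_cast this
  -- the sign of `θ`
  obtain ⟨th, hth⟩ : ∃ th : F, th ^ 3 = 3 * (n : F) * th + (n : F) * (u₀.natAbs : F) := by
    rcases Int.natAbs_eq u₀ with h | h
    · refine ⟨θ, ?_⟩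
      have h5 : (u₀ : F) = ((u₀.natAbs : ℕ) : F) := by
        have := congrArg (Int.cast : ℤ → F) h
        rwa [Int.cast_natCast] at this
      rw [hθ, h5]
    · refine ⟨-θ, ?_⟩
      have h5 : ((u₀.natAbs : ℕ) : F) = -(u₀ : F) := by
        have := congrArg (Int.cast : ℤ → F) h
        rw [Int.cast_neg, Int.cast_natCast] at this
        rw [this, neg_neg]
      rw [h5]
      linear_combination -hθ
  rcases hcase with hcase | hcase
  · -- the unramified case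
    exfalso
    obtain ⟨b₁, hb₁⟩ : ∃ b₁ : ℤ, γ.im = 3 * b₁ := by
      obtain ⟨z, hz⟩ := hcase
      refine ⟨z.im, ?_⟩
      have := congrArg QuadraticAlgebra.im hz
      rw [QuadraticAlgebra.im_sub, mul_im] at this
      have e : γ.im - 0 = 3 * z.im + 0 * z.re - 0 * z.im := this
      linarith
    have hb0 : b₁ ≠ 0 := by
      rintro rfl
      exact hv0 (by rw [hb₁]; ring)
    have h4n : 4 * n = u₀.natAbs ^ 2 + 27 * b₁.natAbs ^ 2 := by
      zify
      rw [sq_abs, sq_abs, hn4, hb₁]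
      ring
    have hdisc := disc_eq hd C h4n hsq (Int.natAbs_pos.2 hb0) hth
    rw [hdisc] at h3
    exact disc_three h4n hsq h3
  · have h4n : 4 * n = u₀.natAbs ^ 2 + 3 * γ.im.natAbs ^ 2 := by
      zify
      rw [sq_abs, sq_abs]
      exact hn4
    refine ⟨u₀.natAbs, γ.im.natAbs, n, th, Int.natAbs_pos.2 hu0, Int.natAbs_pos.2 hv0, ?_, h4n, hsq,
      hn3, hth⟩
    intro h
    apply hcase
    exact Int.natCast_dvd.2 h

end core

end Pool.Agent.Run7.h289.RD
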