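import Pool.Agent.Run7.h289.RD.R2

/-!
# The dictionary of the cyclic cubic fields ramified at `3`, part 3: the resolvent of `θ`, uniqueness
-/

set_option autoImplicit false

open NumberField

namespace Pool.Agent.Run7.h289.RD

open Pool.Agent.Y692.QS
open Pool.Agent.Run7.h741.CC

/-- `β = (u + v √-3) / 2`, of norm `n = (u² + 3 v²) / 4` -/
def bet' (u v : ℤ) : Ei := ⟨(u + v) / 2, v⟩

section arith

variable {u v : ℤ} {n : ℕ}

lemma par' (hn : 4 * (n : ℤ) = u ^ 2 + 3 * v ^ 2) : (u + v) / 2 * 2 = u + v := by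
  have h1 : (u + v) % 2 = 0 := by
    rcases Int.emod_two_eq_zero_or_one u with h | h <;>
    rcases Int.emod_two_eq_zero_or_one v with h' | h'
    · omega
    · exfalso
      have h2 : (u ^ 2 + 3 * v ^ 2) % 2 = 1 := by
        rw [pow_two, pow_two]
        simp [Int.add_emod, Int.mul_emod, h, h']
      omega
    · exfalso
      have h2 : (u ^ 2 + 3 * v ^ 2) % 2 = 1 := by
        rw [pow_two, pow_two]
        simp [Int.add_emod, Int.mul_emod, h, h']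
      omega
    · omega
  omega

lemma nr_bet' (hn : 4 * (n : ℤ) = u ^ 2 + 3 * v ^ 2) : nr (bet' u v) = n := by
  have h1 := par' hn
  unfold nr bet'
  simp only
  generalize (u + v) / 2 = a at h1 ⊢
  have h2 : u = a * 2 - v := by linarith
  subst h2
  linarith

lemma n_three' (hn : 4 * (n : ℤ) = u ^ 2 + 3 * v ^ 2) (h3 : ¬ 3 ∣ n) : n % 3 = 1 := by
  have h5 : ¬ (3 : ℤ) ∣ u := by
    rintro ⟨c, rfl⟩
    apply h3
    have h4 : (3 : ℤ) ∣ 4 * (n : ℤ) := ⟨3 * c ^ 2 + v ^ 2, by rw [hn]; ring⟩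
    have h6 : IsCoprime (3 : ℤ) 4 := ⟨-1, 1, by norm_num⟩
    have h7 : (3 : ℤ) ∣ (n : ℤ) := h6.dvd_of_dvd_mul_left h4
    exact_mod_cast h7
  have h5' : u % 3 = 1 ∨ u % 3 = 2 := by omega
  have h6 : u ^ 2 % 3 = 1 := by
    rcases h5' with h | h <;> simp [pow_two, Int.mul_emod, h]
  omega

/-- no prime divides `n` and `u` -/
lemma cop' (hn : 4 * (n : ℤ) = u ^ 2 + 3 * v ^ 2) (hsq : Squarefree n) (h3 : ¬ 3 ∣ n) {p : ℕ}
    (hp : p.Prime) (h1 : p ∣ n) (h2 : (p : ℤ) ∣ u) : False := by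
  have hp3 : p ≠ 3 := by
    rintro rfl
    exact h3 h1
  have hpi : Prime (p : ℤ) := Nat.prime_iff_prime_int.1 hp
  have h4 : (p : ℤ) ∣ 3 * v ^ 2 := by
    have h5 : (p : ℤ) ∣ 4 * (n : ℤ) := Dvd.dvd.mul_left (by exact_mod_cast h1) _
    rw [hn] at h5
    exact (dvd_add_right (dvd_pow h2 two_ne_zero)).1 h5
  have h5 : (p : ℤ) ∣ v := by
    rcases hpi.dvd_or_dvd h4 with h | h
    · exfalso
      have h6 : p ∣ 3 := by exact_mod_cast h
      exact hp3 ((Nat.prime_dvd_prime_iff_eq hp Nat.prime_three).1 h6)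
    · exact hpi.dvd_of_dvd_pow h
  by_cases hp2 : p = 2
  · subst hp2
    obtain ⟨a, rfl⟩ := h2
    obtain ⟨b, rfl⟩ := h5
    obtain ⟨c, rfl⟩ := h1
    push_cast at hn
    have hc : (2 : ℤ) * c = a ^ 2 + 3 * b ^ 2 := by linarith
    have h6 : (a + b) % 2 = 0 := by
      rcases Int.emod_two_eq_zero_or_one a with h | h <;>
      rcases Int.emod_two_eq_zero_or_one b with h' | h'
      · omega
      · exfalso
        have h2 : (a ^ 2 + 3 * b ^ 2) % 2 = 1 := by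
          rw [pow_two, pow_two]
          simp [Int.add_emod, Int.mul_emod, h, h']
        omega
      · exfalso
        have h2 : (a ^ 2 + 3 * b ^ 2) % 2 = 1 := by
          rw [pow_two, pow_two]
          simp [Int.add_emod, Int.mul_emod, h, h']
        omega
      · omega
    obtain ⟨d, hd⟩ : ∃ d, a = 2 * d - b := ⟨(a + b) / 2, by omega⟩
    subst hd
    have h7 : (c : ℤ) = 2 * (d ^ 2 - d * b + b ^ 2) := by linarith
    have h8 : 2 ∣ c := by
      have : ((2 : ℕ) : ℤ) ∣ (c : ℤ) := ⟨_, by exact_mod_cast h7⟩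
      exact_mod_cast this
    have h9 := hsq 2 (Nat.mul_dvd_mul_left 2 h8)
    rw [Nat.isUnit_iff] at h9
    omega
  · obtain ⟨a, rfl⟩ := h2
    obtain ⟨b, rfl⟩ := h5
    have h6 : ((p : ℤ) * p) ∣ 4 * (n : ℤ) := ⟨a ^ 2 + 3 * b ^ 2, by rw [hn]; ring⟩
    have h7 : p * p ∣ 4 * n := by exact_mod_cast h6
    have h8 : Nat.Coprime (p * p) 4 := by
      have h9 : Nat.Coprime p 2 := (Nat.coprime_primes hp Nat.prime_two).2 hp2
      have : Nat.Coprime (p * p) (2 * 2) := Nat.Coprime.mul_left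
        (Nat.Coprime.mul_right h9 h9) (Nat.Coprime.mul_right h9 h9)
      exact this
    have h10 := hsq p (h8.dvd_of_dvd_mul_left h7)
    rw [Nat.isUnit_iff] at h10
    exact hp.one_lt.ne' h10

end arith

section

variable {u v n : ℕ}

lemma hnZ' (hn : 4 * n = u ^ 2 + 3 * v ^ 2) : 4 * (n : ℤ) = (u : ℤ) ^ 2 + 3 * (v : ℤ) ^ 2 := by
  exact_mod_cast hn

/-- no rational root, `n = 1` -/
lemma no_rat_one (t : ℚ) : t ^ 3 ≠ 3 * t + 1 := by
  intro h
  have hint : IsIntegral ℤ t := by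
    refine ⟨Polynomial.X ^ 3 - (Polynomial.C 3 * Polynomial.X + Polynomial.C 1), ?_, ?_⟩
    · apply Polynomial.Monic.sub_of_left (Polynomial.monic_X_pow 3)
      refine lt_of_le_of_lt (Polynomial.degree_linear_le) ?_
      rw [Polynomial.degree_X_pow]
      norm_num
    · rw [Polynomial.eval₂_sub, Polynomial.eval₂_add, Polynomial.eval₂_mul, Polynomial.eval₂_X_pow,
        Polynomial.eval₂_C, Polynomial.eval₂_C, Polynomial.eval₂_X, algebraMap_int_eq, eq_intCast,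
        eq_intCast, h]
      push_cast
      ring
  obtain ⟨m, hm⟩ := IsIntegrallyClosed.isIntegral_iff.1 hint
  have h1 : m ^ 3 = 3 * m + 1 := by
    rw [← hm] at h
    simp only [algebraMap_int_eq, eq_intCast] at h
    exact_mod_cast h
  have h2 : m ∣ 1 := ⟨m ^ 2 - 3, by linear_combination -h1⟩
  rcases Int.isUnit_iff.1 (isUnit_of_dvd_one h2) with h3 | h3 <;> rw [h3] at h1 <;> norm_num at h1

lemma v_pos (h3v : ¬ 3 ∣ v) : 0 < v := by
  rcases Nat.eq_zero_or_pos v with h | h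
  · rw [h] at h3v
    exact absurd (dvd_zero 3) h3v
  · exact h

lemma no_rat' (hn : 4 * n = u ^ 2 + 3 * v ^ 2) (hsq : Squarefree n) (h3 : ¬ 3 ∣ n)
    (h3v : ¬ 3 ∣ v) (t : ℚ) : t ^ 3 ≠ 3 * (n : ℚ) * t + (n : ℚ) * (u : ℚ) := by
  by_cases h1 : n = 1
  · subst h1
    have hv := v_pos h3v
    have hv1 : v = 1 := by
      have : v < 2 := by
        by_contra h
        push Not at h
        nlinarith
      omega
    subst hv1
    have hu1 : u = 1 := by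
      have : u < 2 := by
        by_contra h
        push Not at h
        nlinarith
      interval_cases u
      · omega
      · rfl
    subst hu1
    have := no_rat_one t
    intro h
    apply this
    rw [h]
    push_cast
    ring
  · exact_mod_cast no_rat (u := (u : ℤ)) (n := n)
      (fun p hp hpn hpu => cop' (hnZ' hn) hsq h3 hp hpn hpu) hsq h1 t

variable {F : Type} [Field F] [NumberField F] {s : F ≃ₐ[ℚ] F} {th : F}

/-- `θ` is not rational -/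
lemma th_nr' (hn : 4 * n = u ^ 2 + 3 * v ^ 2) (hsq : Squarefree n) (h3 : ¬ 3 ∣ n) (h3v : ¬ 3 ∣ v)
    (hth : th ^ 3 = 3 * (n : F) * th + (n : F) * (u : F)) : ∀ t : ℚ, algebraMap ℚ F t ≠ th := by
  intro t ht
  apply no_rat' hn hsq h3 h3v t
  have h1 : algebraMap ℚ F (t ^ 3) = algebraMap ℚ F (3 * (n : ℚ) * t + (n : ℚ) * (u : ℚ)) := by
    rw [map_pow, map_add, map_mul, map_mul, map_mul, ht, hth]
    simp
  exact (algebraMap ℚ F).injective h1

/-- **The resolvent.** -/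
theorem resolv' (C : Cyc F s) (hn : 4 * n = u ^ 2 + 3 * v ^ 2) (hsq : Squarefree n) (h3n : ¬ 3 ∣ n)
    (h3v : ¬ 3 ∣ v) (hth : th ^ 3 = 3 * (n : F) * th + (n : F) * (u : F)) :
    ∃ (X Y : F) (v' : ℤ), (v' = v ∨ v' = -v) ∧ s X = Y - X ∧ s Y = -X ∧
      X ^ 2 - X * Y + Y ^ 2 = (n : F) ∧
      X ^ 3 + Y ^ 3 - 3 * X * Y ^ 2 = (n : F) * ((bet' u v').re : F) ∧
      3 * X ^ 2 * Y - 3 * X * Y ^ 2 = (n : F) * ((bet' u v').im : F) ∧
      IsIntegral ℤ (3 * X) ∧ IsIntegral ℤ (3 * Y) ∧ th = 2 * X - Y ∧ s th = 2 * Y - X := by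
  have hnr := th_nr' hn hsq h3n h3v hth
  have hq := th_quad C hnr hth
  have hs := th_sum C hnr hth
  have ith := th_int hth
  have ith' : IsIntegral ℤ (s th) := int_s ith
  have i2 : IsIntegral ℤ (2 : F) := by
    have := isIntegral_algebraMap (R := ℤ) (A := F) (x := 2)
    simpa using this
  have h3 : (3 : F) ≠ 0 := three_ne_zero
  have hn0 : (n : F) ≠ 0 := Nat.cast_ne_zero.2 hsq.ne_zero
  obtain ⟨X, hX⟩ : ∃ X : F, X = (2 * th + s th) / 3 := ⟨_, rfl⟩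
  obtain ⟨Y, hY⟩ : ∃ Y : F, Y = (th + 2 * s th) / 3 := ⟨_, rfl⟩
  have hX3 : 3 * X = 2 * th + s th := by rw [hX, mul_div_cancel₀ _ h3]
  have hY3 : 3 * Y = th + 2 * s th := by rw [hY, mul_div_cancel₀ _ h3]
  have ht : th = 2 * X - Y := by
    apply mul_left_cancel₀ h3
    linear_combination -2 * hX3 + hY3
  have ht' : s th = 2 * Y - X := by
    apply mul_left_cancel₀ h3
    linear_combination -2 * hY3 + hX3
  have sX : s X = Y - X := by
    have h4 := congrArg s hX3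
    simp only [map_add, map_mul, map_ofNat] at h4
    apply mul_left_cancel₀ h3
    linear_combination h4 + hs - hY3 + hX3
  have sY : s Y = -X := by
    have h4 := congrArg s hY3
    simp only [map_add, map_mul, map_ofNat] at h4
    apply mul_left_cancel₀ h3
    linear_combination h4 + 2 * hs + hX3
  have e1 : X ^ 2 - X * Y + Y ^ 2 = (n : F) := by
    apply mul_left_cancel₀ h3
    rw [ht', ht] at hq
    linear_combination hq
  have e2 : 2 * (X ^ 3 + Y ^ 3 - 3 * X * Y ^ 2) - (3 * X ^ 2 * Y - 3 * X * Y ^ 2) =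
      (n : F) * (u : F) := by
    rw [ht] at hth
    linear_combination hth - 3 * (2 * X - Y) * e1
  have hnF : 4 * (n : F) = (u : F) ^ 2 + 3 * (v : F) ^ 2 := by
    exact_mod_cast congrArg (Nat.cast : ℕ → F) hn
  -- the square of the second coordinate
  have e3 : (3 * X ^ 2 * Y - 3 * X * Y ^ 2) ^ 2 = ((n : F) * v) ^ 2 := by
    apply mul_left_cancel₀ h3
    have e4 : 3 * (3 * X ^ 2 * Y - 3 * X * Y ^ 2) ^ 2 = 4 * (X ^ 2 - X * Y + Y ^ 2) ^ 3 -
        (2 * (X ^ 3 + Y ^ 3 - 3 * X * Y ^ 2) - (3 * X ^ 2 * Y - 3 * X * Y ^ 2)) ^ 2 := by ring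
    rw [e4, e1, e2]
    linear_combination (n : F) ^ 2 * hnF
  have h2 : (2 : F) ≠ 0 := two_ne_zero
  obtain ⟨v', hv', e5⟩ : ∃ v' : ℤ, (v' = v ∨ v' = -v) ∧
      3 * X ^ 2 * Y - 3 * X * Y ^ 2 = (n : F) * (v' : F) := by
    rcases sq_eq_sq_iff_eq_or_eq_neg.1 e3 with h | h
    · refine ⟨v, Or.inl rfl, ?_⟩
      rw [h]
      push_cast
      ring
    · refine ⟨-v, Or.inr rfl, ?_⟩
      rw [h]
      push_cast
      ring
  have hn' : 4 * (n : ℤ) = (u : ℤ) ^ 2 + 3 * v' ^ 2 := by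
    rcases hv' with h | h <;> rw [h, hnZ' hn]
    ring
  have hpar := par' hn'
  refine ⟨X, Y, v', hv', sX, sY, e1, ?_, ?_, ?_, ?_, ht, ht'⟩
  · apply mul_left_cancel₀ h2
    have h6 : (2 : F) * ((bet' u v').re : F) = (u : F) + (v' : F) := by
      have h7 : ((((u : ℤ) + v') / 2 * 2 : ℤ) : F) = (((u : ℤ) + v' : ℤ) : F) := by rw [hpar]
      push_cast at h7
      have h8 : ((bet' u v').re : F) = ((((u : ℤ) + v') / 2 : ℤ) : F) := rfl
      rw [h8]
      linear_combination h7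
    linear_combination e2 + e5 - (n : F) * h6
  · rw [e5]
    have h8 : ((bet' u v').im : F) = ((v' : ℤ) : F) := rfl
    rw [h8]
  · rw [hX3]
    exact (i2.mul ith).add ith'
  · rw [hY3]
    exact ith.add (i2.mul ith')

/-- **Uniqueness**, the conductor being given -/
theorem unique_uv' (C : Cyc F s) {u₁ v₁ : ℕ} {th₁ : F} (hn : 4 * n = u ^ 2 + 3 * v ^ 2)
    (hn₁ : 4 * n = u₁ ^ 2 + 3 * v₁ ^ 2) (hsq : Squarefree n) (h3n : ¬ 3 ∣ n) (h3v : ¬ 3 ∣ v)
    (h3v₁ : ¬ 3 ∣ v₁)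
    (hth : th ^ 3 = 3 * (n : F) * th + (n : F) * (u : F))
    (hth₁ : th₁ ^ 3 = 3 * (n : F) * th₁ + (n : F) * (u₁ : F)) : u = u₁ ∧ v = v₁ := by
  obtain ⟨X, Y, v', hv', sX, sY, a1, a2, a3, iX, iY, -⟩ := resolv' C hn hsq h3n h3v hth
  obtain ⟨X₁, Y₁, v₁', hv₁', sX₁, sY₁, b1, b2, b3, iX₁, iY₁, -⟩ := resolv' C hn₁ hsq h3n h3v₁ hth₁
  have hn0 : (n : F) ≠ 0 := Nat.cast_ne_zero.2 hsq.ne_zero
  obtain ⟨k₀, hk₀⟩ := C.int (x := 9 * (X₁ * (X - Y) + Y₁ * Y)) (by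
    simp only [map_mul, map_add, map_sub, map_ofNat, sX, sY, sX₁, sY₁]
    ring) (by
    have e : 9 * (X₁ * (X - Y) + Y₁ * Y) = (3 * X₁) * (3 * X - 3 * Y) + (3 * Y₁) * (3 * Y) := by ring
    rw [e]
    exact (iX₁.mul (iX.sub iY)).add (iY₁.mul iY))
  obtain ⟨k₁, hk₁⟩ := C.int (x := 9 * (Y₁ * X - X₁ * Y)) (by
    simp only [map_mul, map_sub, map_ofNat, sX, sY, sX₁, sY₁]
    ring) (by
    have e : 9 * (Y₁ * X - X₁ * Y) = (3 * Y₁) * (3 * X) - (3 * X₁) * (3 * Y) := by ring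
    rw [e]
    exact (iY₁.mul iX).sub (iX₁.mul iY))
  have c1 : (k₀ : F) * X - k₁ * Y = 9 * (n : F) * X₁ := by
    rw [← hk₀, ← hk₁, ← a1]
    ring
  have c2 : (k₀ : F) * Y + k₁ * X - k₁ * Y = 9 * (n : F) * Y₁ := by
    rw [← hk₀, ← hk₁, ← a1]
    ring
  obtain ⟨p, hp⟩ : ∃ p : ℤ, p = k₀ ^ 3 + k₁ ^ 3 - 3 * k₀ * k₁ ^ 2 := ⟨_, rfl⟩
  obtain ⟨q, hq⟩ : ∃ q : ℤ, q = 3 * k₀ ^ 2 * k₁ - 3 * k₀ * k₁ ^ 2 := ⟨_, rfl⟩
  have hpF : (p : F) = (k₀ : F) ^ 3 + (k₁ : F) ^ 3 - 3 * k₀ * (k₁ : F) ^ 2 := by rw [hp]; push_cast; ring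
  have hqF : (q : F) = 3 * (k₀ : F) ^ 2 * k₁ - 3 * k₀ * (k₁ : F) ^ 2 := by rw [hq]; push_cast; ring
  have d1 : (p : F) * (bet' u v').re - q * (bet' u v').im = (9 * (n : F)) ^ 3 * (bet' u₁ v₁').re := by
    apply mul_left_cancel₀ hn0
    have e1 : (n : F) * ((9 * (n : F)) ^ 3 * (bet' u₁ v₁').re) =
        (9 * (n : F) * X₁) ^ 3 + (9 * (n : F) * Y₁) ^ 3 - 3 * (9 * (n : F) * X₁) * (9 * (n : F) * Y₁) ^ 2 := by
      linear_combination -(9 * (n : F)) ^ 3 * b2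
    rw [e1, ← c1, ← c2, hpF, hqF]
    linear_combination -((k₀ : F) ^ 3 + (k₁ : F) ^ 3 - 3 * k₀ * (k₁ : F) ^ 2) * a2 +
      (3 * (k₀ : F) ^ 2 * k₁ - 3 * k₀ * (k₁ : F) ^ 2) * a3
  have d2 : (p : F) * (bet' u v').im + q * (bet' u v').re - q * (bet' u v').im =
      (9 * (n : F)) ^ 3 * (bet' u₁ v₁').im := by
    apply mul_left_cancel₀ hn0
    have e1 : (n : F) * ((9 * (n : F)) ^ 3 * (bet' u₁ v₁').im) =
        3 * (9 * (n : F) * X₁) ^ 2 * (9 * (n : F) * Y₁) - 3 * (9 * (n : F) * X₁) * (9 * (n : F) * Y₁) ^ 2 := by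
      linear_combination -(9 * (n : F)) ^ 3 * b3
    rw [e1, ← c1, ← c2, hpF, hqF]
    linear_combination -((k₀ : F) ^ 3 + (k₁ : F) ^ 3 - 3 * k₀ * (k₁ : F) ^ 2) * a3 -
      (3 * (k₀ : F) ^ 2 * k₁ - 3 * k₀ * (k₁ : F) ^ 2) * a2 +
      (3 * (k₀ : F) ^ 2 * k₁ - 3 * k₀ * (k₁ : F) ^ 2) * a3
  have f1 : p * (bet' u v').re - q * (bet' u v').im = (9 * (n : ℤ)) ^ 3 * (bet' u₁ v₁').re := by
    exact_mod_cast d1
  have f2 : p * (bet' u v').im + q * (bet' u v').re - q * (bet' u v').im =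
      (9 * (n : ℤ)) ^ 3 * (bet' u₁ v₁').im := by
    exact_mod_cast d2
  have hn' : 4 * (n : ℤ) = (u : ℤ) ^ 2 + 3 * v' ^ 2 := by
    rcases hv' with h | h <;> rw [h, hnZ' hn]
    ring
  have hn₁' : 4 * (n : ℤ) = (u₁ : ℤ) ^ 2 + 3 * v₁' ^ 2 := by
    rcases hv₁' with h | h <;> rw [h, hnZ' hn₁]
    ring
  have key : (⟨k₀, k₁⟩ : Ei) ^ 3 * bet' u v' = ((((9 * n : ℕ) : ℤ)) : Ei) ^ 3 * bet' u₁ v₁' := by
    rw [cube_mk, ← hp, ← hq, ← Int.cast_pow]
    ext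
    · rw [mul_re, mul_re]
      show p * (bet' u v').re - q * (bet' u v').im =
        (((9 * n : ℕ) : ℤ)) ^ 3 * (bet' u₁ v₁').re - 0 * (bet' u₁ v₁').im
      rw [f1]
      push_cast
      ring
    · rw [mul_im, mul_im]
      show p * (bet' u v').im + q * (bet' u v').re - q * (bet' u v').im =
        (((9 * n : ℕ) : ℤ)) ^ 3 * (bet' u₁ v₁').im + 0 * (bet' u₁ v₁').re - 0 * (bet' u₁ v₁').im
      rw [f2]
      push_cast
      ring
  have h9 : ((((9 * n : ℕ) : ℤ)) : Ei) ≠ 0 := by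
    have : 9 * n ≠ 0 := by
      have := hsq.ne_zero
      omega
    exact_mod_cast this
  have hfin := uniq hsq (nr_bet' hn') (nr_bet' hn₁') h9 key
  have him : v' = v₁' ∨ v' = -v₁' := by
    rcases hfin with h | h
    · left
      exact congrArg QuadraticAlgebra.im h
    · right
      exact congrArg QuadraticAlgebra.im h
  have hvv : v = v₁ := by
    rcases hv' with h | h <;> rcases hv₁' with h' | h' <;> rcases him with h'' | h'' <;> omega
  refine ⟨?_, hvv⟩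
  rw [hvv] at hn
  have h1 : u ^ 2 = u₁ ^ 2 := by omega
  exact Nat.pow_left_injective (by norm_num : 2 ≠ 0) h1

end

end Pool.Agent.Run7.h289.RD
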