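import Pool.Agent.Run7.h289.RD.R3

/-!
# The dictionary of the cyclic cubic fields ramified at `3`, part 4: the discriminant is `(9 n)²`
-/

set_option autoImplicit false
set_option linter.unusedSectionVars false

open NumberField

namespace Pool.Agent.Run7.h289.RD

open Pool.Agent.Y692.QS
open Pool.Agent.Run7.h741.CC

/-- three-maximality, the arithmetic -/
lemma arith3 {x y n a b : ℤ} (hn : ¬ (3 : ℤ) ∣ n) (hy : ¬ (3 : ℤ) ∣ y)
    (h1 : (3 : ℤ) ∣ n * (a ^ 2 - a * b + b ^ 2))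
    (h2 : (27 : ℤ) ∣ n * ((2 * x - y) * (a ^ 3 + b ^ 3) + (6 * y - 3 * x) * (a ^ 2 * b) -
      3 * (x + y) * (a * b ^ 2))) : (3 : ℤ) ∣ a ∧ (3 : ℤ) ∣ b := by
  have hp := Int.prime_three
  have h3 : (3 : ℤ) ∣ a ^ 2 - a * b + b ^ 2 := (hp.dvd_or_dvd h1).resolve_left hn
  have h4 : (3 : ℤ) ∣ a + b := by
    have h5 : (3 : ℤ) ∣ (a + b) ^ 2 := by
      obtain ⟨k, hk⟩ := h3
      exact ⟨k + a * b, by linear_combination hk⟩
    exact hp.dvd_of_dvd_pow h5
  obtain ⟨g, hg⟩ := h4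
  have hb : b = -a + 3 * g := by linarith
  subst hb
  have h5 : (27 : ℤ) ∣ 9 * (n * (y * a ^ 3)) := by
    obtain ⟨k, hk⟩ := h2
    refine ⟨n * ((x + y) * (a ^ 2 * g) - 3 * x * (a * g ^ 2) + (2 * x - y) * g ^ 3) - k, ?_⟩
    linear_combination -hk
  have h6 : (3 : ℤ) ∣ n * (y * a ^ 3) := by
    have h7 : (9 : ℤ) * 3 ∣ 9 * (n * (y * a ^ 3)) := by norm_num; exact h5
    exact (mul_dvd_mul_iff_left (by norm_num : (9 : ℤ) ≠ 0)).1 h7
  have h7 : (3 : ℤ) ∣ a :=
    hp.dvd_of_dvd_pow ((hp.dvd_or_dvd ((hp.dvd_or_dvd h6).resolve_left hn)).resolve_left hy)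
  exact ⟨h7, dvd_add (dvd_neg.2 h7) (dvd_mul_right _ _)⟩

section

variable {F : Type} [Field F] [NumberField F] {s : F ≃ₐ[ℚ] F} {u v n : ℕ} {th : F}

/-- three-maximality, the elements of trace zero -/
lemma max_zero (C : Cyc F s) (hn : 4 * n = u ^ 2 + 3 * v ^ 2) (hsq : Squarefree n) (h3n : ¬ 3 ∣ n)
    (h3v : ¬ 3 ∣ v) (hth : th ^ 3 = 3 * (n : F) * th + (n : F) * (u : F)) {a b : ℤ} {z : F}
    (hz : 3 * z = (a : F) * th + (b : F) * s th) (iz : IsIntegral ℤ z) :
    (3 : ℤ) ∣ a ∧ (3 : ℤ) ∣ b := by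
  obtain ⟨X, Y, v', hv', sX, sY, a1, a2, a3, iX, iY, t1, t2⟩ := resolv' C hn hsq h3n h3v hth
  have iz' := int_s (s := s) iz
  have iz'' := int_s (s := s) iz'
  have hz' : 3 * s z = (a : F) * s th + (b : F) * s (s th) := by
    have := congrArg s hz
    simpa only [map_mul, map_add, map_ofNat, map_intCast] using this
  have hz'' : 3 * s (s z) = (a : F) * s (s th) + (b : F) * th := by
    have := congrArg s hz'
    simpa only [map_mul, map_add, map_ofNat, map_intCast, C.cube] using this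
  have t3 : s (s th) = -X - Y := by
    rw [t2, map_sub, map_mul, map_ofNat, sX, sY]
    ring
  rw [t3, t2] at hz'
  rw [t3, t1] at hz''
  rw [t2, t1] at hz
  obtain ⟨E2, hE2⟩ := C.int (x := z * s z + s z * s (s z) + s (s z) * z) (by
    simp only [map_add, map_mul, C.cube]
    ring) (((iz.mul iz').add (iz'.mul iz'')).add (iz''.mul iz))
  obtain ⟨E3, hE3⟩ := C.int (x := z * s z * s (s z)) (by
    simp only [map_mul, C.cube]
    ring) ((iz.mul iz').mul iz'')
  have e2 : 9 * (E2 : F) = -3 * (n : F) * ((a : F) ^ 2 - a * b + (b : F) ^ 2) := by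
    rw [← hE2, ← a1]
    have e : 9 * (z * s z + s z * s (s z) + s (s z) * z) = (3 * z) * (3 * s z) +
      (3 * s z) * (3 * s (s z)) + (3 * s (s z)) * (3 * z) := by ring
    rw [e, hz, hz', hz'']
    ring
  have e3 : 27 * (E3 : F) = (n : F) * ((2 * ((bet' u v').re : F) - ((bet' u v').im : F)) *
      ((a : F) ^ 3 + (b : F) ^ 3) + (6 * ((bet' u v').im : F) - 3 * ((bet' u v').re : F)) *
      ((a : F) ^ 2 * b) - 3 * (((bet' u v').re : F) + ((bet' u v').im : F)) * ((a : F) * (b : F) ^ 2)) := by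
    rw [← hE3]
    have e : 27 * (z * s z * s (s z)) = (3 * z) * (3 * s z) * (3 * s (s z)) := by ring
    rw [e, hz, hz', hz'']
    linear_combination (2 * ((a : F) ^ 3 + (b : F) ^ 3) - 3 * ((a : F) ^ 2 * b) -
      3 * ((a : F) * (b : F) ^ 2)) * a2 + (-((a : F) ^ 3 + (b : F) ^ 3) + 6 * ((a : F) ^ 2 * b) -
      3 * ((a : F) * (b : F) ^ 2)) * a3
  have f2 : 9 * E2 = -3 * (n : ℤ) * (a ^ 2 - a * b + b ^ 2) := by exact_mod_cast e2
  have f3 : 27 * E3 = (n : ℤ) * ((2 * (bet' u v').re - (bet' u v').im) *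
      (a ^ 3 + b ^ 3) + (6 * (bet' u v').im - 3 * (bet' u v').re) *
      (a ^ 2 * b) - 3 * ((bet' u v').re + (bet' u v').im) * (a * b ^ 2)) := by exact_mod_cast e3
  refine arith3 (n := (n : ℤ)) (x := (bet' u v').re) (y := (bet' u v').im) ?_ ?_ ⟨-E2, by linarith⟩
    ⟨E3, f3.symm⟩
  · intro h
    exact h3n (by exact_mod_cast h)
  · show ¬ (3 : ℤ) ∣ v'
    rcases hv' with h | h
    · rw [h]
      intro h'
      exact h3v (by exact_mod_cast h')
    · rw [h, dvd_neg]
      intro h'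
      exact h3v (by exact_mod_cast h')

/-- three-maximality -/
lemma max_three (C : Cyc F s) (hn : 4 * n = u ^ 2 + 3 * v ^ 2) (hsq : Squarefree n) (h3n : ¬ 3 ∣ n)
    (h3v : ¬ 3 ∣ v) (hth : th ^ 3 = 3 * (n : F) * th + (n : F) * (u : F)) {a b c : ℤ} {z : F}
    (hz : 3 * z = (a : F) + (b : F) * th + (c : F) * s th) (iz : IsIntegral ℤ z) :
    (3 : ℤ) ∣ a ∧ (3 : ℤ) ∣ b ∧ (3 : ℤ) ∣ c := by
  have hnr := th_nr' hn hsq h3n h3v hth
  have hs := th_sum C hnr hth
  have hq := th_quad C hnr hth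
  have hs2 : s (s th) = -th - s th := by linear_combination hs
  have iz' := int_s (s := s) iz
  have iz'' := int_s (s := s) iz'
  have hz' : 3 * s z = (a : F) + (b : F) * s th + (c : F) * (-th - s th) := by
    have := congrArg s hz
    rw [← hs2]
    simpa only [map_mul, map_add, map_ofNat, map_intCast] using this
  have hz'' : 3 * s (s z) = (a : F) + (b : F) * (-th - s th) + (c : F) * th := by
    have := congrArg s hz'
    simp only [map_mul, map_add, map_sub, map_neg, map_ofNat, map_intCast] at this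
    rw [this, hs2]
    ring
  -- the difference
  have h1 : 3 * (z - s z) = ((b + c : ℤ) : F) * th + ((2 * c - b : ℤ) : F) * s th := by
    push_cast
    linear_combination hz - hz'
  obtain ⟨d1, -⟩ := max_zero C hn hsq h3n h3v hth h1 (iz.sub iz')
  -- the second symmetric function
  obtain ⟨E2, hE2⟩ := C.int (x := z * s z + s z * s (s z) + s (s z) * z) (by
    simp only [map_add, map_mul, C.cube]
    ring) (((iz.mul iz').add (iz'.mul iz'')).add (iz''.mul iz))
  have e2 : 9 * (E2 : F) = 3 * ((a : F) ^ 2 - (n : F) * ((b : F) ^ 2 - b * c + (c : F) ^ 2)) := by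
    rw [← hE2]
    have e : 9 * (z * s z + s z * s (s z) + s (s z) * z) = (3 * z) * (3 * s z) +
      (3 * s z) * (3 * s (s z)) + (3 * s (s z)) * (3 * z) := by ring
    rw [e, hz, hz', hz'']
    linear_combination -((b : F) ^ 2 - b * c + (c : F) ^ 2) * hq
  have f2 : 9 * E2 = 3 * (a ^ 2 - (n : ℤ) * (b ^ 2 - b * c + c ^ 2)) := by exact_mod_cast e2
  have hp := Int.prime_three
  have d2 : (3 : ℤ) ∣ b ^ 2 - b * c + c ^ 2 := by
    obtain ⟨k, hk⟩ := d1
    exact ⟨3 * k ^ 2 - b * c, by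
      have : b ^ 2 - b * c + c ^ 2 = (b + c) ^ 2 - 3 * (b * c) := by ring
      rw [this, hk]
      ring⟩
  have d3 : (3 : ℤ) ∣ a := by
    apply hp.dvd_of_dvd_pow (n := 2)
    have : a ^ 2 = 3 * E2 + (n : ℤ) * (b ^ 2 - b * c + c ^ 2) := by linarith
    rw [this]
    exact dvd_add (dvd_mul_right _ _) (Dvd.dvd.mul_left d2 _)
  obtain ⟨k, hk⟩ := d3
  have h2 : 3 * (z - (k : F)) = (b : F) * th + (c : F) * s th := by
    have : (a : F) = 3 * (k : F) := by exact_mod_cast congrArg (Int.cast : ℤ → F) hk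
    linear_combination hz + this
  exact ⟨⟨k, hk⟩, max_zero C hn hsq h3n h3v hth h2 (iz.sub (int_val k))⟩

/-- the prime divisors of `n` divide the discriminant -/
lemma dvd_disc' (C : Cyc F s) (hsq : Squarefree n)
    (hth : th ^ 3 = 3 * (n : F) * th + (n : F) * (u : F)) {p : ℕ} (hp : p.Prime) (hpn : p ∣ n)
    (hpu : ¬ (p : ℤ) ∣ (u : ℤ)) : (p : ℤ) ∣ discr F := by
  have : Fact p.Prime := ⟨hp⟩
  have ith : IsIntegral ℤ th := th_int hth
  obtain ⟨t, ht⟩ : ∃ t : 𝓞 F, (t : F) = th := ⟨⟨th, ith⟩, rfl⟩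
  set b := RingOfIntegers.basis F with hb
  have h1 : ∀ i, (p : ℤ) ∣ Algebra.trace ℤ (𝓞 F) (b i * t) := by
    intro i
    apply tr_dvd C hth hp hpn (x := (b i : F)) (RingOfIntegers.isIntegral_coe (b i))
    rw [tr_val C]
    have e : ((b i * t : 𝓞 F) : F) = th * (b i : F) := by
      rw [← ht]
      push_cast
      ring
    rw [e]
  rw [← ZMod.intCast_zmod_eq_zero_iff_dvd]
  unfold discr
  rw [Algebra.discr_def]
  show (Int.castRingHom (ZMod p)) (Matrix.det _) = 0
  rw [RingHom.map_det]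
  apply Matrix.exists_mulVec_eq_zero_iff.1
  refine ⟨fun i => ((b.repr t i : ℤ) : ZMod p), ?_, ?_⟩
  · intro h
    have h2 : ∀ i, (p : ℤ) ∣ b.repr t i := fun i =>
      (ZMod.intCast_zmod_eq_zero_iff_dvd _ p).1 (congrFun h i)
    choose c hc using h2
    have h3 : t = (p : 𝓞 F) * ∑ i, c i • b i := by
      conv_lhs => rw [← b.sum_repr t]
      rw [Finset.mul_sum]
      refine Finset.sum_congr rfl fun i _ => ?_
      rw [hc i]
      simp only [zsmul_eq_mul]
      push_cast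
      ring
    obtain ⟨t₁, ht₁⟩ : ∃ t₁ : F, t₁ = ((∑ i, c i • b i : 𝓞 F) : F) := ⟨_, rfl⟩
    have it₁ : IsIntegral ℤ t₁ := by rw [ht₁]; exact RingOfIntegers.isIntegral_coe _
    have h4 : th = (p : F) * t₁ := by
      rw [← ht, h3, ht₁]
      push_cast
      rfl
    obtain ⟨m, rfl⟩ := hpn
    have hp0 : (p : F) ≠ 0 := Nat.cast_ne_zero.2 hp.ne_zero
    have h5 : ((m * u : ℕ) : F) = (p : F) * ((p : F) * t₁ ^ 3 - 3 * (m : F) * t₁) := by
      apply mul_left_cancel₀ hp0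
      rw [h4] at hth
      push_cast at hth ⊢
      linear_combination -hth
    obtain ⟨r, hr⟩ : ∃ r : F, r = (p : F) * t₁ ^ 3 - 3 * (m : F) * t₁ := ⟨_, rfl⟩
    have ir : IsIntegral ℤ r := by
      rw [hr]
      have iN : ∀ k : ℕ, IsIntegral ℤ ((k : F)) := fun k => by
        have := int_val (F := F) (k : ℤ)
        simpa using this
      have i3 := iN 3
      push_cast at i3
      exact ((iN p).mul (it₁.pow 3)).sub ((i3.mul (iN m)).mul it₁)
    rw [← hr] at h5
    have h6 : s r = r := by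
      have h7 := congrArg s h5
      rw [map_mul, map_natCast, map_natCast, h5] at h7
      exact (mul_left_cancel₀ hp0 h7).symm
    obtain ⟨k, hk⟩ := C.int h6 ir
    rw [hk] at h5
    have h7 : ((m * u : ℕ) : ℤ) = (p : ℤ) * k := by exact_mod_cast h5
    have h8 : p ∣ m * u := by
      have : (p : ℤ) ∣ ((m * u : ℕ) : ℤ) := ⟨k, h7⟩
      exact_mod_cast this
    rcases (Nat.Prime.dvd_mul hp).1 h8 with h9 | h9
    · have h10 := hsq p (Nat.mul_dvd_mul_left p h9)
      rw [Nat.isUnit_iff] at h10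
      exact hp.one_lt.ne' h10
    · exact hpu (by exact_mod_cast h9)
  · funext i
    show ∑ j, ((Int.castRingHom (ZMod p)).mapMatrix (Algebra.traceMatrix ℤ b)) i j *
      ((b.repr t j : ℤ) : ZMod p) = 0
    have h2 : Algebra.trace ℤ (𝓞 F) (b i * t) =
        ∑ j, Algebra.trace ℤ (𝓞 F) (b i * b j) * b.repr t j := by
      conv_lhs => rw [← b.sum_repr t]
      rw [Finset.mul_sum, map_sum]
      refine Finset.sum_congr rfl fun j _ => ?_
      rw [mul_smul_comm, map_smul, smul_eq_mul, mul_comm]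
    have h3 := (ZMod.intCast_zmod_eq_zero_iff_dvd _ p).2 (h1 i)
    rw [h2] at h3
    push_cast at h3
    rw [← h3]
    refine Finset.sum_congr rfl fun j _ => ?_
    rw [RingHom.mapMatrix_apply, Matrix.map_apply, Algebra.traceMatrix_apply,
      Algebra.traceForm_apply, Int.coe_castRingHom]

/-- **The discriminant.** -/
theorem disc_eq' (hd : Module.finrank ℚ F = 3) (C : Cyc F s) (hn : 4 * n = u ^ 2 + 3 * v ^ 2)
    (hsq : Squarefree n) (h3n : ¬ 3 ∣ n) (h3v : ¬ 3 ∣ v)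
    (hth : th ^ 3 = 3 * (n : F) * th + (n : F) * (u : F)) :
    discr F = (9 * (n : ℤ)) ^ 2 := by
  have hnr := th_nr' hn hsq h3n h3v hth
  have hq := th_quad C hnr hth
  have hs := th_sum C hnr hth
  have hs2 : s (s th) = -th - s th := by linear_combination hs
  have ith := th_int hth
  -- the three integers
  obtain ⟨y₁, hy₁⟩ : ∃ y : 𝓞 F, algebraMap (𝓞 F) F y = th := ⟨⟨th, ith⟩, rfl⟩
  obtain ⟨y₂, hy₂⟩ : ∃ y : 𝓞 F, algebraMap (𝓞 F) F y = s th := ⟨⟨s th, int_s ith⟩, rfl⟩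
  have entry : ∀ (a b : 𝓞 F) (E : ℤ), (E : F) = algebraMap (𝓞 F) F a * algebraMap (𝓞 F) F b +
      s (algebraMap (𝓞 F) F a) * s (algebraMap (𝓞 F) F b) +
      s (s (algebraMap (𝓞 F) F a)) * s (s (algebraMap (𝓞 F) F b)) →
      Algebra.trace ℤ (𝓞 F) (a * b) = E := by
    intro a b E hE
    have : ((Algebra.trace ℤ (𝓞 F) (a * b) : ℤ) : F) = (E : F) := by
      rw [tr_val' C, hE]
      simp only [map_mul]
    exact_mod_cast this
  have hdet : Algebra.discr ℤ ![(1 : 𝓞 F), y₁, y₂] = (9 * (n : ℤ)) ^ 2 := by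
    rw [Algebra.discr_def, Matrix.det_fin_three]
    simp only [Algebra.traceMatrix_apply, Algebra.traceForm_apply]
    have m00 : Algebra.trace ℤ (𝓞 F) ((1 : 𝓞 F) * 1) = 3 := entry _ _ _ (by
      rw [map_one, map_one, map_one]
      push_cast
      ring)
    have m01 : Algebra.trace ℤ (𝓞 F) (1 * y₁) = 0 := entry _ _ _ (by
      rw [map_one, map_one, map_one, hy₁]
      push_cast
      linear_combination -hs)
    have m10 : Algebra.trace ℤ (𝓞 F) (y₁ * 1) = 0 := by rw [mul_comm]; exact m01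
    have m02 : Algebra.trace ℤ (𝓞 F) (1 * y₂) = 0 := entry _ _ _ (by
      rw [map_one, map_one, map_one, hy₂, C.cube]
      push_cast
      linear_combination -hs)
    have m20 : Algebra.trace ℤ (𝓞 F) (y₂ * 1) = 0 := by rw [mul_comm]; exact m02
    have m11 : Algebra.trace ℤ (𝓞 F) (y₁ * y₁) = 6 * (n : ℤ) := entry _ _ _ (by
      rw [hy₁, hs2]
      push_cast
      linear_combination -2 * hq)
    have m22 : Algebra.trace ℤ (𝓞 F) (y₂ * y₂) = 6 * (n : ℤ) := entry _ _ _ (by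
      rw [hy₂, C.cube, hs2]
      push_cast
      linear_combination -2 * hq)
    have m12 : Algebra.trace ℤ (𝓞 F) (y₁ * y₂) = -3 * (n : ℤ) := entry _ _ _ (by
      rw [hy₁, hy₂, C.cube, hs2]
      push_cast
      linear_combination hq)
    have m21 : Algebra.trace ℤ (𝓞 F) (y₂ * y₁) = -3 * (n : ℤ) := by rw [mul_comm]; exact m12
    simp only [Matrix.cons_val_zero, Matrix.cons_val_one, Matrix.cons_val]
    rw [m00, m01, m02, m10, m11, m12, m20, m21, m22]
    ring
  -- the index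
  have hcard : Fintype.card (Module.Free.ChooseBasisIndex ℤ (𝓞 F)) = 3 := by
    rw [← Module.finrank_eq_card_basis (RingOfIntegers.basis F), RingOfIntegers.rank, hd]
  obtain ⟨b, hb⟩ : ∃ b : Module.Basis (Fin 3) ℤ (𝓞 F), Algebra.discr ℤ b = discr F := by
    refine ⟨(RingOfIntegers.basis F).reindex (Fintype.equivFinOfCardEq hcard), ?_⟩
    unfold discr
    rw [Module.Basis.coe_reindex, Algebra.discr_reindex]
  obtain ⟨P, hP⟩ : ∃ P : Matrix (Fin 3) (Fin 3) ℤ, P = b.toMatrix ![(1 : 𝓞 F), y₁, y₂] := ⟨_, rfl⟩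
  have hvec : Matrix.vecMul (b : Fin 3 → 𝓞 F) (P.map (algebraMap ℤ (𝓞 F))) = ![(1 : 𝓞 F), y₁, y₂] := by
    funext j
    rw [← b.sum_toMatrix_smul_self ![(1 : 𝓞 F), y₁, y₂] j]
    simp only [Matrix.vecMul, dotProduct, Matrix.map_apply, hP]
    refine Finset.sum_congr rfl fun i _ => ?_
    rw [Algebra.smul_def, mul_comm]
  have hdisc := Algebra.discr_of_matrix_vecMul (A := ℤ) (b : Fin 3 → 𝓞 F) P
  rw [hvec, hdet, hb] at hdisc
  -- three does not divide the determinant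
  have hP3 : ¬ (3 : ℤ) ∣ P.det := by
    intro h
    have hdet0 : ((Int.castRingHom (ZMod 3)).mapMatrix P).det = 0 := by
      rw [← RingHom.map_det]
      exact (ZMod.intCast_zmod_eq_zero_iff_dvd _ 3).2 h
    obtain ⟨x, hx0, hx⟩ := Matrix.exists_mulVec_eq_zero_iff.2 hdet0
    have h1 : ∀ i, (3 : ℤ) ∣ ∑ j, P i j * ((x j).val : ℤ) := by
      intro i
      apply (ZMod.intCast_zmod_eq_zero_iff_dvd _ 3).1
      have h2 := congrFun hx i
      have h3 : ∑ j, ((P i j : ℤ) : ZMod 3) * x j = 0 := h2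
      push_cast
      rw [← h3]
      refine Finset.sum_congr rfl fun j _ => ?_
      rw [ZMod.natCast_zmod_val]
    choose k hk using h1
    obtain ⟨z, hz⟩ : ∃ z : 𝓞 F, z = ∑ i, k i • b i := ⟨_, rfl⟩
    have h3z : (3 : 𝓞 F) * z = ∑ j, ((x j).val : ℤ) • (![(1 : 𝓞 F), y₁, y₂] j) := by
      have h4 : ∀ j, ![(1 : 𝓞 F), y₁, y₂] j = ∑ i, P i j • b i := fun j => by
        rw [hP]
        exact (b.sum_toMatrix_smul_self ![(1 : 𝓞 F), y₁, y₂] j).symm
      simp only [h4, Finset.smul_sum]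
      rw [Finset.sum_comm, hz, Finset.mul_sum]
      refine Finset.sum_congr rfl fun i _ => ?_
      simp only [smul_smul]
      rw [← Finset.sum_smul]
      have h5 : ∑ j, ((x j).val : ℤ) * P i j = 3 * k i := by
        rw [← hk i]
        exact Finset.sum_congr rfl fun j _ => mul_comm _ _
      rw [h5]
      simp only [zsmul_eq_mul]
      push_cast
      ring
    have h4 : 3 * (z : F) = (((x 0).val : ℤ) : F) + (((x 1).val : ℤ) : F) * th +
        (((x 2).val : ℤ) : F) * s th := by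
      have h5 := congrArg (algebraMap (𝓞 F) F) h3z
      rw [Fin.sum_univ_three] at h5
      simp only [map_mul, map_add, map_ofNat, zsmul_eq_mul, map_intCast, Matrix.cons_val_zero,
        Matrix.cons_val_one, Matrix.cons_val, map_one, hy₁, hy₂, mul_one] at h5
      exact h5
    obtain ⟨g0, g1, g2⟩ := max_three C hn hsq h3n h3v hth h4 (RingOfIntegers.isIntegral_coe z)
    apply hx0
    have key : ∀ t : ZMod 3, (3 : ℤ) ∣ ((t.val : ℕ) : ℤ) → t = 0 := by decide
    funext j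
    fin_cases j
    · exact key _ g0
    · exact key _ g1
    · exact key _ g2
  have hn0 : n ≠ 0 := hsq.ne_zero
  have hP1 : P.det.natAbs = 1 := by
    by_contra hne
    obtain ⟨p, hp, hpP⟩ := Nat.exists_prime_and_dvd hne
    have hpi : Prime (p : ℤ) := Nat.prime_iff_prime_int.1 hp
    have hpP' : (p : ℤ) ∣ P.det := Int.natCast_dvd.2 hpP
    have hp3 : p ≠ 3 := by
      rintro rfl
      exact hP3 hpP'
    have hp3' : ¬ (p : ℤ) ∣ 9 := by
      intro h
      have h1 : p ∣ 3 ^ 2 := by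
        have : (p : ℤ) ∣ ((3 ^ 2 : ℕ) : ℤ) := by norm_num; exact h
        exact_mod_cast this
      exact hp3 ((Nat.prime_dvd_prime_iff_eq hp Nat.prime_three).1 (hp.dvd_of_dvd_pow h1))
    have hpn : p ∣ n := by
      have h1 : (p : ℤ) ∣ (9 * (n : ℤ)) ^ 2 := by
        rw [hdisc]
        exact Dvd.dvd.mul_right (dvd_pow hpP' two_ne_zero) _
      have h2 := (hpi.dvd_or_dvd (hpi.dvd_of_dvd_pow h1)).resolve_left hp3'
      exact_mod_cast h2
    have hpd := dvd_disc' C hsq hth hp hpn (fun h => cop' (hnZ' hn) hsq h3n hp hpn h)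
    obtain ⟨a, ha⟩ : (p : ℤ) ∣ P.det := hpP'
    obtain ⟨d, hd'⟩ := hpd
    obtain ⟨m, hm⟩ := hpn
    have hp0 : (p : ℤ) ≠ 0 := by exact_mod_cast hp.ne_zero
    have h5 : (9 * (m : ℤ)) ^ 2 = p * (a ^ 2 * d) := by
      apply mul_left_cancel₀ (pow_ne_zero 2 hp0)
      rw [ha, hd', hm] at hdisc
      push_cast at hdisc
      linear_combination hdisc
    have h6 : (p : ℤ) ∣ (m : ℤ) :=
      (hpi.dvd_or_dvd (hpi.dvd_of_dvd_pow ⟨_, h5⟩)).resolve_left hp3'
    have h7 : p ∣ m := by exact_mod_cast h6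
    have h8 := hsq p (by rw [hm]; exact Nat.mul_dvd_mul_left p h7)
    rw [Nat.isUnit_iff] at h8
    exact hp.one_lt.ne' h8
  have h5 : P.det ^ 2 = 1 := by
    have := congrArg (fun k : ℕ => (k : ℤ) ^ 2) hP1
    simp only [Nat.cast_one, one_pow] at this
    rw [← this, Int.natCast_natAbs, sq_abs]
  rw [h5, one_mul] at hdisc
  exact hdisc.symm

end

end Pool.Agent.Run7.h289.RD
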