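import Pool.Agent.Run7.h289.RD.R4

/-!
# The dictionary of the cyclic cubic fields ramified at `3`, part 5

The pairs `(u, v)` of positive integers with `4 n = u² + 3 v²`, `n` squarefree, `3 ∤ n v`, correspond to
the cyclic cubic fields `F` ramified at `3`: `F = ℚ(θ)`, `θ³ = 3 n θ + n u`, `disc F = (9 n)²`.
-/

set_option autoImplicit false

open NumberField Polynomial

namespace Pool.Agent.Run7.h289.RD

open Pool.Agent.Run7.h741.CC

section

variable {u v n : ℕ}

lemma pol_irr' (hn : 4 * n = u ^ 2 + 3 * v ^ 2) (hsq : Squarefree n) (h3n : ¬ 3 ∣ n)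
    (h3v : ¬ 3 ∣ v) : Irreducible (pol u n) := by
  rw [(pol_monic u n).irreducible_iff_roots_eq_zero_of_degree_le_three (by rw [pol_deg]; norm_num)
    (by rw [pol_deg])]
  rw [Multiset.eq_zero_iff_forall_notMem]
  intro t ht
  have h1 := (mem_roots'.1 ht).2
  rw [IsRoot.def, pol, eval_sub, eval_add, eval_mul, eval_pow, eval_X, eval_C, eval_C] at h1
  exact no_rat' hn hsq h3n h3v t (by linear_combination h1)

/-- a field generated by a root is Galois -/
theorem gal_th' {L : Type} [Field L] [NumberField L] {th : L} (hd : Module.finrank ℚ L = 3)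
    (hn : 4 * n = u ^ 2 + 3 * v ^ 2) (hsq : Squarefree n) (h3n : ¬ 3 ∣ n) (h3v : ¬ 3 ∣ v)
    (hth : th ^ 3 = 3 * (n : L) * th + (n : L) * (u : L)) : IsGalois ℚ L := by
  have hnr := th_nr' hn hsq h3n h3v hth
  refine gal_th (u := ((3 * u : ℕ) : ℤ)) (v := (v : ℤ)) (n := 9 * n) (th := 3 * th) ?_ ?_ ?_ ?_ hd
  · have := hnZ' hn
    push_cast
    linear_combination 9 * this
  · push_cast
    linear_combination 27 * hth
  · intro t ht
    apply hnr (t / 3)
    rw [map_div₀, ht, map_ofNat]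
    have h3 : (3 : L) ≠ 0 := three_ne_zero
    field_simp
  · have := hsq.ne_zero
    omega

/-- **(D1')** The field of a pair. -/
theorem field_of' (hn : 4 * n = u ^ 2 + 3 * v ^ 2) (hsq : Squarefree n) (h3n : ¬ 3 ∣ n)
    (h3v : ¬ 3 ∣ v) :
    ∃ (F : Type) (_ : Field F) (_ : NumberField F), Module.finrank ℚ F = 3 ∧ IsGalois ℚ F ∧
      discr F = (9 * (n : ℤ)) ^ 2 ∧ ∃ th : F, th ^ 3 = 3 * (n : F) * th + (n : F) * (u : F) := by
  have : Fact (Irreducible (pol u n)) := ⟨pol_irr' hn hsq h3n h3v⟩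
  have hne : pol u n ≠ 0 := (pol_monic u n).ne_zero
  have hfd : FiniteDimensional ℚ (AdjoinRoot (pol u n)) :=
    (AdjoinRoot.powerBasis hne).finite
  have hnf : NumberField (AdjoinRoot (pol u n)) := {
    to_charZero := charZero_of_injective_algebraMap (algebraMap ℚ (AdjoinRoot (pol u n))).injective
    to_finiteDimensional := hfd }
  have hd : Module.finrank ℚ (AdjoinRoot (pol u n)) = 3 := by
    rw [(AdjoinRoot.powerBasis hne).finrank, AdjoinRoot.powerBasis_dim, pol_deg]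
  have hth : (AdjoinRoot.root (pol u n)) ^ 3 = 3 * (n : AdjoinRoot (pol u n)) *
      AdjoinRoot.root (pol u n) + (n : AdjoinRoot (pol u n)) * (u : AdjoinRoot (pol u n)) := by
    have h1 := AdjoinRoot.eval₂_root (pol u n)
    generalize AdjoinRoot.root (pol u n) = r at h1 ⊢
    have h2 : eval₂ (AdjoinRoot.of (pol u n)) r (X ^ 3 - (C (3 * (n : ℚ)) * X + C ((n : ℚ) * u))) = 0 := h1
    rw [eval₂_sub, eval₂_add, eval₂_mul, eval₂_X_pow, eval₂_C, eval₂_C, eval₂_X, map_mul, map_mul,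
      map_natCast, map_natCast, map_ofNat] at h2
    exact sub_eq_zero.1 h2
  have hg : IsGalois ℚ (AdjoinRoot (pol u n)) := gal_th' hd hn hsq h3n h3v hth
  obtain ⟨s, C⟩ := exists_cyc (AdjoinRoot (pol u n)) hd
  exact ⟨AdjoinRoot (pol u n), inferInstance, hnf, hd, hg, disc_eq' hd C hn hsq h3n h3v hth, _, hth⟩

end

/-- the pair `(u, v)` belongs to the field `F`, ramified at `3` -/
def IsPair' (F : Type) [Field F] [NumberField F] (u v : ℕ) : Prop :=
  0 < u ∧ 0 < v ∧ ¬ 3 ∣ v ∧ ∃ n : ℕ, 4 * n = u ^ 2 + 3 * v ^ 2 ∧ Squarefree n ∧ ¬ 3 ∣ n ∧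
    discr F = (9 * (n : ℤ)) ^ 2 ∧ ∃ th : F, th ^ 3 = 3 * (n : F) * th + (n : F) * (u : F)

/-- **(D2')** The pair of a field. -/
theorem pair_of' (F : Type) [Field F] [NumberField F] (hd : Module.finrank ℚ F = 3) [IsGalois ℚ F]
    (h3 : (3 : ℤ) ∣ discr F) : ∃! uv : ℕ × ℕ, IsPair' F uv.1 uv.2 := by
  obtain ⟨s, C⟩ := exists_cyc F hd
  obtain ⟨u, v, n, th, hu, hv, h3v, hn, hsq, h3n, hth⟩ := exist' hd h3
  have hdisc := disc_eq' hd C hn hsq h3n h3v hth
  refine ⟨(u, v), ⟨hu, hv, h3v, n, hn, hsq, h3n, hdisc, th, hth⟩, ?_⟩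
  rintro ⟨u₁, v₁⟩ ⟨hu₁, hv₁, h3v₁, n₁, hn₁, hsq₁, h3n₁, hdisc₁, th₁, hth₁⟩
  have hnn : n₁ = n := by
    rw [hdisc] at hdisc₁
    have h2 : (9 * n) ^ 2 = (9 * n₁) ^ 2 := by exact_mod_cast hdisc₁
    have h4 : 9 * n = 9 * n₁ := Nat.pow_left_injective (by norm_num : 2 ≠ 0) h2
    omega
  subst hnn
  obtain ⟨h1, h2⟩ := unique_uv' C hn₁ hn hsq h3n h3v₁ h3v hth₁ hth
  simp only at h1 h2
  rw [h1, h2]

/-- the field of a pair is ramified at `3` -/
theorem disc_three' (n : ℕ) : (3 : ℤ) ∣ (9 * (n : ℤ)) ^ 2 := ⟨27 * (n : ℤ) ^ 2, by ring⟩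

/-- a positive `v` prime to three -/
theorem u_pos' {u v n : ℕ} (hn : 4 * n = u ^ 2 + 3 * v ^ 2) (h3n : ¬ 3 ∣ n) : 0 < u := by
  rcases Nat.eq_zero_or_pos u with h | h
  · exfalso
    subst h
    apply h3n
    omega
  · exact h

/-- **(D3')** Two fields with the same pair are isomorphic. -/
theorem iso_of' {F F' : Type} [Field F] [NumberField F] [Field F'] [NumberField F'] {u v : ℕ}
    (hd : Module.finrank ℚ F = 3) (hd' : Module.finrank ℚ F' = 3)
    (h : IsPair' F u v) (h' : IsPair' F' u v) : Nonempty (F ≃ₐ[ℚ] F') := by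
  obtain ⟨hu, hv, h3v, n, hn, hsq, h3n, hdisc, th, hth⟩ := h
  obtain ⟨-, -, -, n', hn', -, -, -, th', hth'⟩ := h'
  have hnn : n' = n := by omega
  subst hnn
  have hirr := pol_irr' hn' hsq h3n h3v
  have key : ∀ (L : Type) [Field L] [NumberField L] (t : L), Module.finrank ℚ L = 3 →
      t ^ 3 = 3 * (n' : L) * t + (n' : L) * (u : L) → Nonempty (AdjoinRoot (pol u n') ≃ₐ[ℚ] L) := by
    intro L _ _ t hL ht
    have : Fact (Irreducible (pol u n')) := ⟨hirr⟩
    have hroot : aeval t (pol u n') = 0 := by rw [aeval_pol, ht, sub_self]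
    let f : AdjoinRoot (pol u n') →ₐ[ℚ] L := AdjoinRoot.liftAlgHom (pol u n') (Algebra.ofId ℚ L) t hroot
    have hinj : Function.Injective f := f.toRingHom.injective
    have hfd : FiniteDimensional ℚ (AdjoinRoot (pol u n')) :=
      (AdjoinRoot.powerBasis (pol_monic u n').ne_zero).finite
    have hdd : Module.finrank ℚ (AdjoinRoot (pol u n')) = Module.finrank ℚ L := by
      rw [(AdjoinRoot.powerBasis (pol_monic u n').ne_zero).finrank, AdjoinRoot.powerBasis_dim,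
        pol_deg, hL]
    have hsur : Function.Surjective f :=
      (LinearMap.injective_iff_surjective_of_finrank_eq_finrank (f := f.toLinearMap) hdd).1 hinj
    exact ⟨AlgEquiv.ofBijective f ⟨hinj, hsur⟩⟩
  obtain ⟨e⟩ := key F th hd hth
  obtain ⟨e'⟩ := key F' th' hd' hth'
  exact ⟨e.symm.trans e'⟩

end Pool.Agent.Run7.h289.RD
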